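import Pool.Agent.H840Z.MG.Defs

set_option autoImplicit false

namespace Pool.Agent.H840Z.MG

/-- Geodesic metric space: any two points are joined by an isometric image of `[0, d(x,y)]`. -/
def IsGeodesic (X : Type) [MetricSpace X] : Prop :=
  ∀ x y : X, ∃ c : ℝ → X, c 0 = x ∧ c (dist x y) = y ∧
    ∀ s ∈ Set.Icc 0 (dist x y), ∀ t ∈ Set.Icc 0 (dist x y), dist (c s) (c t) = |s - t|

/-- Gromov hyperbolicity (four-point condition). -/
def IsGromovHyperbolic (X : Type) [MetricSpace X] : Prop :=
  ∃ δ : ℝ, ∀ x y z w : X,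
    dist x y + dist z w ≤ max (dist x z + dist y w) (dist x w + dist y z) + 2 * δ

/-- Acylindrical action: for every `ε > 0` there are `R, N` such that for `d(x,y) ≥ R` at most `N`
elements move both `x` and `y` by at most `ε`. -/
def IsAcylindrical (G X : Type) [Group G] [MetricSpace X] [MulAction G X] : Prop :=
  ∀ ε : ℝ, 0 < ε → ∃ (R : ℝ) (N : ℕ), ∀ x y : X, R ≤ dist x y →
    {g : G | dist x (g • x) ≤ ε ∧ dist y (g • y) ≤ ε}.encard ≤ N

/-- Acylindrically hyperbolic group: not virtually cyclic, with an acylindrical isometric action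
with unbounded orbits on a hyperbolic geodesic metric space. -/
def AcylindricallyHyperbolic (G : Type) [Group G] : Prop :=
  ¬ VirtuallyCyclic G ∧
    ∃ (X : Type) (_ : MetricSpace X) (_ : MulAction G X),
      (∀ (g : G) (x y : X), dist (g • x) (g • y) = dist x y) ∧
      IsGeodesic X ∧ IsGromovHyperbolic X ∧ IsAcylindrical G X ∧
      ∃ x : X, ∀ B : ℝ, ∃ g : G, B < dist x (g • x)

end Pool.Agent.H840Z.MG
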