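import Pool.Agent.H840Z.MG.AHDefs

set_option autoImplicit false

namespace Pool.Agent.H840Z.MG

/-- four point condition with explicit constant -/
def FP (X : Type) [MetricSpace X] (δ : ℝ) : Prop :=
  ∀ x y z w : X, dist x y + dist z w ≤ max (dist x z + dist y w) (dist x w + dist y z) + 2 * δ

section
variable {G X : Type} [Group G] [MetricSpace X] [MulAction G X]

theorem FP.cases {δ : ℝ} (h : FP X δ) (x y z w : X) :
    dist x y + dist z w ≤ dist x z + dist y w + 2 * δ ∨
    dist x y + dist z w ≤ dist x w + dist y z + 2 * δ := by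
  have := h x y z w
  rcases le_total (dist x z + dist y w) (dist x w + dist y z) with h1 | h1
  · right; rwa [max_eq_right h1] at this
  · left; rwa [max_eq_left h1] at this

theorem FP.nonneg {δ : ℝ} (h : FP X δ) (x : X) : 0 ≤ δ := by
  have := h x x x x
  simp at this
  linarith

theorem IsGeodesic.point (h : IsGeodesic X) (x y : X) (t : ℝ) (h0 : 0 ≤ t) (h1 : t ≤ dist x y) :
    ∃ z : X, dist x z = t ∧ dist z y = dist x y - t := by
  obtain ⟨c, c0, c1, hc⟩ := h x y
  refine ⟨c t, ?_, ?_⟩
  · have := hc 0 ⟨le_rfl, dist_nonneg⟩ t ⟨h0, h1⟩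
    rw [c0] at this
    rw [this, zero_sub, abs_neg, abs_of_nonneg h0]
  · have := hc t ⟨h0, h1⟩ (dist x y) ⟨dist_nonneg, le_rfl⟩
    rw [c1] at this
    rw [this, abs_of_nonpos (by linarith)]; ring

theorem IsGeodesic.two_points (h : IsGeodesic X) (x y : X) (s t : ℝ) (h0 : 0 ≤ s) (hst : s ≤ t)
    (h1 : t ≤ dist x y) :
    ∃ u v : X, dist x u = s ∧ dist u y = dist x y - s ∧ dist x v = t ∧
      dist v y = dist x y - t ∧ dist u v = t - s := by
  obtain ⟨u, hu1, hu2⟩ := h.point x y s h0 (hst.trans h1)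
  obtain ⟨v, hv1, hv2⟩ := h.point u y (t - s) (by linarith) (by linarith)
  refine ⟨u, v, hu1, hu2, ?_, by linarith, hv1⟩
  have a := dist_triangle x u v
  have b := dist_triangle x v y
  linarith

/-- a loxodromic element from the inequality `|g²| ≥ |g| + 2δ + 1`. -/
theorem unbounded_of_sq (iso : ∀ (g : G) (x y : X), dist (g • x) (g • y) = dist x y)
    {δ : ℝ} (h : FP X δ) (o : X) (g : G)
    (hg : dist o (g • o) + 2 * δ + 1 ≤ dist o ((g * g) • o)) (B : ℝ) :
    ∃ k : G, B < dist o (k • o) := by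
  have hδ := h.nonneg o
  have key : ∀ n : ℕ, dist o ((g ^ n) • o) + 1 ≤ dist o ((g ^ (n + 1)) • o) := by
    intro n
    induction n with
    | zero =>
      simp only [pow_zero, one_smul, dist_self, zero_add, pow_one]
      have := dist_triangle o (g • o) ((g * g) • o)
      rw [mul_smul, iso] at this
      rw [mul_smul] at hg
      linarith
    | succ n ih =>
      have e1 : dist (g • o) ((g ^ (n + 1 + 1)) • o) = dist o ((g ^ (n + 1)) • o) := by
        rw [pow_succ' g (n + 1), mul_smul, iso]
      have e2 : dist ((g * g) • o) ((g ^ (n + 1 + 1)) • o) = dist o ((g ^ n) • o) := by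
        have : g ^ (n + 1 + 1) = (g * g) * g ^ n := by
          rw [pow_succ', pow_succ', mul_assoc]
        rw [this, mul_smul (g * g), iso]
      have e3 : dist ((g * g) • o) (g • o) = dist o (g • o) := by
        rw [mul_smul, iso, dist_comm]
      rcases h.cases o ((g * g) • o) (g • o) ((g ^ (n + 1 + 1)) • o) with h1 | h1
      · rw [e1, e2] at h1; linarith
      · rw [e1, e3] at h1; linarith
  have key2 : ∀ n : ℕ, (n : ℝ) ≤ dist o ((g ^ n) • o) := by
    intro n
    induction n with
    | zero => simp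
    | succ n ih => have := key n; push_cast; linarith
  obtain ⟨n, hn⟩ := exists_nat_gt B
  exact ⟨g ^ n, hn.trans_le (key2 n)⟩

/-- If no element satisfies the inequality, all elements point in one direction. -/
theorem same_dir (iso : ∀ (g : G) (x y : X), dist (g • x) (g • y) = dist x y)
    {δ : ℝ} (h : FP X δ) (o : X)
    (H : ∀ g : G, dist o ((g * g) • o) < dist o (g • o) + 2 * δ + 1) (f g : G)
    (hfg : dist o (g • o) ≤ dist o (f • o)) :
    dist (f • o) (g • o) ≤ dist o (f • o) + 8 * δ + 2 := by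
  have hδ := h.nonneg o
  have inv : ∀ k : G, dist o (k⁻¹ • o) = dist o (k • o) := by
    intro k
    rw [← iso k, smul_inv_smul, dist_comm]
  have H' : ∀ k : G, dist (k • o) (k⁻¹ • o) < dist o (k • o) + 2 * δ + 1 := by
    intro k
    have := H k
    rw [← iso k (k • o), smul_inv_smul, ← mul_smul, dist_comm]
    exact this
  by_contra hcon
  push Not at hcon
  have hf := H' f
  have hg := H' g
  have hu := H' (f * g)
  have if_ := inv f
  have ig := inv g
  have iu := inv (f * g)
  -- distances between the points f o, g o, f⁻¹ o, g⁻¹ o, u o, u⁻¹ o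
  have d1 : dist (f • o) ((f * g) • o) = dist o (g • o) := by rw [mul_smul, iso]
  have d2 : dist ((f * g)⁻¹ • o) (g⁻¹ • o) = dist o (f • o) := by
    rw [mul_inv_rev, mul_smul, iso, dist_comm, if_]
  have d3 : dist o ((f * g) • o) = dist (f⁻¹ • o) (g • o) := by
    rw [← iso f (f⁻¹ • o), smul_inv_smul, mul_smul]
  have c1 := h.cases (f • o) (g • o) o (f⁻¹ • o)
  have c2 := h.cases (f • o) (g • o) o (g⁻¹ • o)
  have c3 := h.cases (f • o) (g⁻¹ • o) o ((f * g) • o)
  have c4 := h.cases ((f * g) • o) (g⁻¹ • o) o ((f * g)⁻¹ • o)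
  have t1 := dist_triangle (f • o) o (g⁻¹ • o)
  have t2 := dist_triangle (f⁻¹ • o) o (g • o)
  have t3 := dist_triangle (f • o) o (g • o)
  rw [dist_comm (f • o) o] at c1 c2 c3 t1 t3
  rw [dist_comm (g • o) o] at c1 c2
  rw [dist_comm (g⁻¹ • o) o] at c3 c4
  rw [dist_comm ((f * g) • o) o] at c4
  rw [dist_comm (f⁻¹ • o) o] at t2
  rw [dist_comm (g • o) (f⁻¹ • o)] at c1
  rw [dist_comm (g⁻¹ • o) ((f * g) • o)] at c3
  rw [dist_comm (g⁻¹ • o) ((f * g)⁻¹ • o)] at c4
  rw [d1] at c3
  rw [d2] at c4
  rcases c1 with c1 | c1 <;> rcases c2 with c2 | c2 <;> rcases c3 with c3 | c3 <;>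
    rcases c4 with c4 | c4 <;> linarith

/-- An acylindrical action with unbounded orbits has an element with `|g²| ≥ |g| + 2δ + 1`. -/
theorem exists_sq (iso : ∀ (g : G) (x y : X), dist (g • x) (g • y) = dist x y)
    {δ : ℝ} (h : FP X δ) (geo : IsGeodesic X) (ac : IsAcylindrical G X) (o : X)
    (unb : ∀ B : ℝ, ∃ g : G, B < dist o (g • o)) :
    ∃ g : G, dist o (g • o) + 2 * δ + 1 ≤ dist o ((g * g) • o) := by
  by_contra hcon
  push Not at hcon
  have hδ := h.nonneg o
  have sd := same_dir iso h o hcon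
  have inv : ∀ k : G, dist o (k⁻¹ • o) = dist o (k • o) := by
    intro k
    rw [← iso k, smul_inv_smul, dist_comm]
  obtain ⟨R, N, hR⟩ := ac (12 * δ + 2) (by linarith)
  -- every ball contains at most `N` orbit elements
  have hball : ∀ T : ℝ, 0 ≤ T → {g : G | dist o (g • o) ≤ T}.encard ≤ N := by
    intro T hT
    obtain ⟨f, hf⟩ := unb (2 * (T + |R|) + 2 * T + 8 * δ + 2)
    have hRa := abs_nonneg R
    have hRb := le_abs_self R
    obtain ⟨x, y, hx1, hx2, hy1, hy2, hxy⟩ := geo.two_points o (f • o) T (T + |R|) hT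
      (by linarith) (by linarith)
    refine le_trans (Set.encard_le_encard ?_) (hR x y (by linarith))
    intro g hg
    simp only [Set.mem_ofPred_eq] at hg ⊢
    have key : ∀ (z : X) (t : ℝ), T ≤ t → t ≤ T + |R| → dist o z = t →
        dist z (f • o) = dist o (f • o) - t → dist z (g • z) ≤ 12 * δ + 2 := by
      intro z t ht1 ht2 hz1 hz2
      have e1 : dist (g • o) ((g * f) • o) = dist o (f • o) := by rw [mul_smul, iso]
      have e2 : dist (g • z) (g • o) = t := by rw [iso, dist_comm, hz1]
      have e3 : dist (g • z) ((g * f) • o) = dist o (f • o) - t := by rw [mul_smul, iso, hz2]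
      have e4 : dist o ((g * f) • o) = dist (f • o) (g⁻¹ • o) := by
        rw [← iso g (f • o), smul_inv_smul, mul_smul, dist_comm]
      have s1 := sd f g⁻¹ (by rw [inv]; linarith)
      have s2 := sd f g (by linarith)
      have t0 := dist_triangle o (g • o) ((g * f) • o)
      have t1 := dist_triangle (g • o) o ((g * f) • o)
      rw [dist_comm (g • o) o] at t1
      have s3 : dist (f • o) ((g * f) • o) ≤ dist o (f • o) + T + 8 * δ + 2 := by
        rcases le_total (dist o ((g * f) • o)) (dist o (f • o)) with hh | hh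
        · have := sd f (g * f) hh; linarith
        · have := sd (g * f) f hh
          rw [dist_comm ((g * f) • o) (f • o)] at this; linarith
      have c1 := h.cases z ((g * f) • o) o (f • o)
      have c2 := h.cases z (g • o) o (f • o)
      have c3 := h.cases z (g • z) (g • o) ((g * f) • o)
      rw [dist_comm z o] at c1 c2
      rw [dist_comm ((g * f) • o) (f • o), dist_comm ((g * f) • o) o] at c1
      rw [dist_comm (g • o) (f • o), dist_comm (g • o) o] at c2
      rcases c1 with c1 | c1 <;> rcases c2 with c2 | c2 <;> rcases c3 with c3 | c3 <;> linarith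
    exact ⟨key x T le_rfl (by linarith) hx1 hx2, key y (T + |R|) (by linarith) le_rfl hy1 hy2⟩
  -- but the balls exhaust an unbounded orbit
  have hgrow : ∀ m : ℕ, ∃ T : ℝ, 0 ≤ T ∧ (m : ℕ∞) ≤ {g : G | dist o (g • o) ≤ T}.encard := by
    intro m
    induction m with
    | zero => exact ⟨0, le_rfl, by simp⟩
    | succ m ih =>
      obtain ⟨T, hT, hm⟩ := ih
      obtain ⟨g, hg⟩ := unb T
      refine ⟨dist o (g • o), dist_nonneg, ?_⟩
      have hsub : insert g {k : G | dist o (k • o) ≤ T} ⊆ {k : G | dist o (k • o) ≤ dist o (g • o)} := by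
        intro k hk
        rcases hk with rfl | hk
        · exact le_refl (dist o (k • o))
        · exact le_trans hk hg.le
      have hnot : g ∉ {k : G | dist o (k • o) ≤ T} := by
        simp only [Set.mem_ofPred_eq, not_le]; exact hg
      have := Set.encard_le_encard hsub
      rw [Set.encard_insert_of_notMem hnot] at this
      push_cast
      exact le_trans (by gcongr) this
  obtain ⟨T, hT, hm⟩ := hgrow (N + 1)
  have := hm.trans (hball T hT)
  have h2 : N + 1 ≤ N := by exact_mod_cast this
  omega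

/-- a point of `[gx, gy]` is almost on a geodesic from `x` to `y`. -/
theorem near_geod {δ ε s D : ℝ} (h : FP X δ) (x y x' y' u : X) (hD : dist x y = D)
    (hD' : dist x' y' = D) (hx : dist x x' ≤ ε) (hy : dist y y' ≤ ε) (hu1 : dist x' u = s)
    (hu2 : dist u y' = D - s) (hs1 : ε + 2 * δ < s) (hs2 : ε + 2 * δ < D - s) :
    dist x u + dist u y ≤ D + 4 * δ := by
  have hδ := h.nonneg x
  have c1 := h.cases x' y' u x
  have c2 := h.cases x y' u y
  have t1 := dist_triangle x' x u
  have t2 := dist_triangle u y y'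
  rw [dist_comm x' x] at c1 t1
  rw [dist_comm u x, dist_comm y' u, dist_comm y' x] at c1
  rw [dist_comm y' y, dist_comm y' u] at c2
  rcases c1 with c1 | c1 <;> rcases c2 with c2 | c2 <;> linarith

theorem close_of_near {δ D : ℝ} (h : FP X δ) (x y u v : X) (hD : dist x y = D)
    (hu : dist x u + dist u y ≤ D + 4 * δ) (hv : dist x v + dist v y ≤ D + 4 * δ)
    (huv : |dist x u - dist x v| ≤ 1) : dist u v ≤ 6 * δ + 1 := by
  have c := h.cases u v x y
  rw [dist_comm u x, dist_comm v x] at c
  have := abs_le.1 huv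
  rcases c with c | c <;> linarith [this.1, this.2]

/-- Acylindricity for one value of `ε` implies acylindricity. -/
theorem acyl_of_single (iso : ∀ (g : G) (x y : X), dist (g • x) (g • y) = dist x y)
    {δ : ℝ} (h : FP X δ) (geo : IsGeodesic X) (R : ℝ) (M : ℕ)
    (H : ∀ x y : X, R < dist x y →
      {g : G | dist x (g • x) < 6 * δ + 2 ∧ dist y (g • y) < 6 * δ + 2}.encard ≤ M) :
    IsAcylindrical G X := by
  classical
  intro ε hε
  set s := ε + 2 * |δ| + 1 with hs
  set K : ℕ := ⌈2 * ε⌉₊ + 1 with hK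
  refine ⟨2 * s + |R| + 1, K * K * M, fun x y hxy => ?_⟩
  have hδ := h.nonneg x
  rw [abs_of_nonneg hδ] at hs
  have hRa := abs_nonneg R
  have hRb := le_abs_self R
  set D := dist x y with hD
  obtain ⟨u, v, hu1, hu2, hv1, hv2, huv⟩ := geo.two_points x y s (D - s) (by linarith)
    (by linarith) (by linarith)
  set S := {g : G | dist x (g • x) ≤ ε ∧ dist y (g • y) ≤ ε} with hS
  let φ : G → ℕ × ℕ := fun g => (⌊dist x (g • u) - (s - ε)⌋₊, ⌊dist x (g • v) - (D - s - ε)⌋₊)
  have hb : ∀ g ∈ S, ∀ (z : X) (t : ℝ), dist x z = t →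
      0 ≤ dist x (g • z) - (t - ε) ∧ dist x (g • z) - (t - ε) ≤ 2 * ε := by
    intro g hg z t hz
    have e : dist (g • x) (g • z) = t := by rw [iso, hz]
    have t1 := dist_triangle x (g • x) (g • z)
    have t2 := dist_triangle (g • x) x (g • z)
    rw [dist_comm (g • x) x] at t2
    constructor <;> linarith [hg.1]
  have hfl : ∀ a : ℝ, a ≤ 2 * ε → ⌊a⌋₊ < K := by
    intro a ha
    have : ⌊a⌋₊ ≤ ⌈2 * ε⌉₊ := (Nat.floor_mono ha).trans (Nat.floor_le_ceil _)
    omega
  have hfl2 : ∀ a b : ℝ, 0 ≤ a → 0 ≤ b → ⌊a⌋₊ = ⌊b⌋₊ → |a - b| ≤ 1 := by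
    intro a b ha hb hab
    have h1 := Nat.floor_le ha
    have h2 := Nat.lt_floor_add_one a
    have h3 := Nat.floor_le hb
    have h4 := Nat.lt_floor_add_one b
    rw [hab] at h1 h2
    rw [abs_le]; constructor <;> linarith
  have hnear : ∀ g ∈ S, ∀ (z : X) (t : ℝ), dist x z = t → dist z y = D - t → s ≤ t → t ≤ D - s →
      dist x (g • z) + dist (g • z) y ≤ D + 4 * δ := by
    intro g hg z t hz1 hz2 ht1 ht2
    exact near_geod (s := t) h x y (g • x) (g • y) (g • z) rfl (iso g x y) hg.1 hg.2
      (by rw [iso, hz1]) (by rw [iso, hz2]) (by linarith) (by linarith)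
  -- fibres of φ are small
  have hfib : ∀ p : ℕ × ℕ, (S ∩ φ ⁻¹' {p}).encard ≤ M := by
    intro p
    rcases (S ∩ φ ⁻¹' {p}).eq_empty_or_nonempty with he | ⟨g, hgS, hgp⟩
    · rw [he]; simp
    refine le_trans ?_ (H u v (by linarith))
    apply Set.encard_le_encard_of_injOn (f := fun k => g⁻¹ * k)
    · rintro k ⟨hkS, hkp⟩
      have hφ : φ g = φ k := by
        have a : φ g = p := hgp
        have b : φ k = p := hkp
        rw [a, b]
      have h1 := congrArg Prod.fst hφ
      have h2 := congrArg Prod.snd hφ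
      simp only [φ] at h1 h2
      have a1 := hfl2 _ _ (hb g hgS u s hu1).1 (hb k hkS u s hu1).1 h1
      have a2 := hfl2 _ _ (hb g hgS v (D - s) hv1).1 (hb k hkS v (D - s) hv1).1 h2
      rw [sub_sub_sub_cancel_right] at a1 a2
      have b1 := close_of_near h x y (g • u) (k • u) rfl
        (hnear g hgS u s hu1 hu2 le_rfl (by linarith)) (hnear k hkS u s hu1 hu2 le_rfl (by linarith)) a1
      have b2 := close_of_near h x y (g • v) (k • v) rfl
        (hnear g hgS v (D - s) hv1 hv2 (by linarith) le_rfl)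
        (hnear k hkS v (D - s) hv1 hv2 (by linarith) le_rfl) a2
      have e : ∀ z : X, dist z ((g⁻¹ * k) • z) = dist (g • z) (k • z) := by
        intro z
        rw [← iso g z, mul_smul, smul_inv_smul]
      simp only [Set.mem_ofPred_eq, e]
      constructor <;> linarith
    · intro a _ b _ hab
      exact mul_left_cancel hab
  have hcover : S ⊆ ⋃ p ∈ (Finset.range K ×ˢ Finset.range K), (S ∩ φ ⁻¹' {p}) := by
    intro g hg
    simp only [Set.mem_iUnion]
    refine ⟨φ g, ?_, hg, rfl⟩
    rw [Finset.mem_product, Finset.mem_range, Finset.mem_range]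
    exact ⟨hfl _ (hb g hg u s hu1).2, hfl _ (hb g hg v (D - s) hv1).2⟩
  have hgen : ∀ (T : Finset (ℕ × ℕ)),
      (⋃ p ∈ T, (S ∩ φ ⁻¹' {p})).encard ≤ ((T.card * M : ℕ) : ℕ∞) := by
    intro T
    induction T using Finset.induction_on with
    | empty => simp
    | insert a T ha ih =>
      rw [Finset.set_biUnion_insert, Finset.card_insert_of_notMem ha]
      refine (Set.encard_union_le _ _).trans ?_
      push_cast at ih ⊢
      rw [add_mul, one_mul, add_comm]
      exact add_le_add ih (hfib a)
  refine (Set.encard_le_encard hcover).trans ((hgen _).trans ?_)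
  rw [Finset.card_product, Finset.card_range]

end

end Pool.Agent.H840Z.MG
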