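import Pool.Agent.H840Z.MG.AHGeom

set_option autoImplicit false

open Filter Topology

namespace Pool.Agent.H840Z.MG

/-- quantitative data of an action of the free group factoring through `N` -/
def Good {n : ℕ} (δ C R : ℝ) (M : ℕ) (w : FreeGroup (Fin n)) (N : Subgroup (FreeGroup (Fin n))) :
    Prop :=
  ∃ (X : Type) (_ : MetricSpace X) (_ : MulAction (FreeGroup (Fin n)) X) (o : X),
    (∀ (g : FreeGroup (Fin n)) (x y : X), dist (g • x) (g • y) = dist x y) ∧
    (∀ u ∈ N, ∀ x : X, u • x = x) ∧ IsGeodesic X ∧ FP X δ ∧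
    (∀ i : Fin n, dist o (FreeGroup.of i • o) ≤ C) ∧
    (∀ x y : X, R < dist x y → ∀ f : Fin (M + 1) → FreeGroup (Fin n),
      (∀ j, dist x (f j • x) < 6 * δ + 2 ∧ dist y (f j • y) < 6 * δ + 2) →
      ∃ i j, i ≠ j ∧ (f i)⁻¹ * f j ∈ N) ∧
    dist o (w • o) + 2 * δ + 1 ≤ dist o ((w * w) • o)

theorem ulim_tendsto {ι : Type} (U : Ultrafilter ι) (a : ι → ℝ) (B : ℝ) (h0 : ∀ t, 0 ≤ a t)
    (hB : ∀ t, a t ≤ B) : Tendsto a U (𝓝 (limUnder U a)) := by
  apply tendsto_nhds_limUnder
  have : (U.map a : Filter ℝ) ≤ 𝓟 (Set.Icc 0 B) := by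
    rw [le_principal_iff]
    exact Filter.mem_map.2 (Filter.univ_mem' fun t => ⟨h0 t, hB t⟩)
  obtain ⟨x, _, hx⟩ := isCompact_Icc.ultrafilter_le_nhds (U.map a) this
  exact ⟨x, hx⟩

section UL
variable {ι : Type} (U : Ultrafilter ι) (X : ι → Type) [∀ t, MetricSpace (X t)] (o : ∀ t, X t)

/-- bounded families -/
def PreUL (_U : Ultrafilter ι) (X : ι → Type) [∀ t, MetricSpace (X t)] (o : ∀ t, X t) : Type :=
  {x : ∀ t, X t // ∃ B : ℝ, ∀ t, dist (o t) (x t) ≤ B}

theorem PreUL.tend (x y : PreUL U X o) :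
    Tendsto (fun t => dist (x.1 t) (y.1 t)) U (𝓝 (limUnder U fun t => dist (x.1 t) (y.1 t))) := by
  obtain ⟨B, hB⟩ := x.2
  obtain ⟨B', hB'⟩ := y.2
  refine ulim_tendsto U _ (B + B') (fun t => dist_nonneg) fun t => ?_
  have := dist_triangle_left (x.1 t) (y.1 t) (o t)
  linarith [hB t, hB' t]

noncomputable instance : PseudoMetricSpace (PreUL U X o) where
  dist x y := limUnder U fun t => dist (x.1 t) (y.1 t)
  dist_self x := by
    apply tendsto_nhds_unique (PreUL.tend U X o x x)
    simp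
  dist_comm x y := by simp only [dist_comm]
  dist_triangle x y z :=
    le_of_tendsto_of_tendsto' (PreUL.tend U X o x z)
      ((PreUL.tend U X o x y).add (PreUL.tend U X o y z)) fun t => dist_triangle _ _ _

theorem PreUL.tend' (x y : PreUL U X o) :
    Tendsto (fun t => dist (x.1 t) (y.1 t)) U (𝓝 (dist x y)) := PreUL.tend U X o x y

end UL

theorem good_limit {n : ℕ} {δ C R : ℝ} {M : ℕ} {w : FreeGroup (Fin n)} {ι : Type}
    (U : Ultrafilter ι) (Ns : ι → Subgroup (FreeGroup (Fin n))) (N : Subgroup (FreeGroup (Fin n)))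
    (hG : ∀ t, Good δ C R M w (Ns t)) (hlim : ∀ u, ∀ᶠ t in U, (u ∈ Ns t ↔ u ∈ N)) :
    Good δ C R M w N := by
  choose X mX aX o iso triv geo fp gen acy lox using hG
  have bdd : ∀ u : FreeGroup (Fin n), ∃ B : ℝ, ∀ t, dist (o t) (u • o t) ≤ B := by
    intro u
    induction u using FreeGroup.induction_on with
    | C1 => exact ⟨0, fun t => by simp⟩
    | of i => exact ⟨C, fun t => gen t i⟩
    | inv_of i ih =>
      refine ⟨C, fun t => ?_⟩
      rw [← iso t (FreeGroup.of i), smul_inv_smul, dist_comm]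
      exact gen t i
    | mul a b ha hb =>
      obtain ⟨B, hB⟩ := ha
      obtain ⟨B', hB'⟩ := hb
      refine ⟨B + B', fun t => ?_⟩
      have := dist_triangle (o t) (a • o t) ((a * b) • o t)
      rw [mul_smul, iso] at this
      rw [mul_smul]
      linarith [hB t, hB' t]
  let Y := PreUL U X o
  let act : MulAction (FreeGroup (Fin n)) Y :=
    { smul := fun u x => ⟨fun t => u • x.1 t, by
        obtain ⟨B, hB⟩ := bdd u
        obtain ⟨B', hB'⟩ := x.2
        refine ⟨B + B', fun t => ?_⟩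
        have := dist_triangle (o t) (u • o t) (u • x.1 t)
        rw [iso] at this
        linarith [hB t, hB' t]⟩
      one_smul := fun x => Subtype.ext (funext fun t => one_smul _ _)
      mul_smul := fun a b x => Subtype.ext (funext fun t => mul_smul _ _ _) }
  have sm : ∀ (u : FreeGroup (Fin n)) (x : Y) t, (u • x).1 t = u • x.1 t := fun _ _ _ => rfl
  have tend : ∀ x y : Y, Tendsto (fun t => dist (x.1 t) (y.1 t)) U (𝓝 (dist x y)) :=
    PreUL.tend' U X o
  have isoY : ∀ (u : FreeGroup (Fin n)) (x y : Y), dist (u • x) (u • y) = dist x y := by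
    intro u x y
    apply tendsto_nhds_unique (tend (u • x) (u • y))
    simp only [sm, iso]
    exact tend x y
  have : ContinuousConstSMul (FreeGroup (Fin n)) Y :=
    ⟨fun u => (Isometry.of_dist_eq (isoY u)).continuous⟩
  let oY : Y := ⟨o, 0, fun t => by simp⟩
  have hsurj : ∀ z : SeparationQuotient Y, ∃ x : Y, SeparationQuotient.mk x = z :=
    SeparationQuotient.surjective_mk
  have hmk : ∀ x y : Y, dist x y = 0 → SeparationQuotient.mk x = SeparationQuotient.mk y :=
    fun x y h => SeparationQuotient.mk_eq_mk.2 (Metric.inseparable_iff.2 h)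
  refine ⟨SeparationQuotient Y, inferInstance, inferInstance, SeparationQuotient.mk oY,
    ?_, ?_, ?_, ?_, ?_, ?_, ?_⟩
  · intro g x y
    obtain ⟨x, rfl⟩ := hsurj x
    obtain ⟨y, rfl⟩ := hsurj y
    rw [← SeparationQuotient.mk_smul, ← SeparationQuotient.mk_smul, SeparationQuotient.dist_mk,
      SeparationQuotient.dist_mk, isoY]
  · intro u hu x
    obtain ⟨x, rfl⟩ := hsurj x
    rw [← SeparationQuotient.mk_smul]
    apply hmk
    apply tendsto_nhds_unique (tend (u • x) x)
    apply tendsto_const_nhds.congr'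
    filter_upwards [hlim u] with t ht
    rw [sm, triv t u (ht.2 hu), dist_self]
  · intro x y
    obtain ⟨x, rfl⟩ := hsurj x
    obtain ⟨y, rfl⟩ := hsurj y
    rw [SeparationQuotient.dist_mk]
    choose c c0 c1 hc using fun t => geo t (x.1 t) (y.1 t)
    let cl : ι → ℝ → ℝ := fun t s => min (max s 0) (dist (x.1 t) (y.1 t))
    have hcl : ∀ t s, cl t s ∈ Set.Icc 0 (dist (x.1 t) (y.1 t)) := fun t s =>
      ⟨le_min (le_max_right _ _) dist_nonneg, min_le_right _ _⟩
    have hx : ∀ t s, dist (x.1 t) (c t (cl t s)) = cl t s := by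
      intro t s
      have := hc t 0 ⟨le_rfl, dist_nonneg⟩ _ (hcl t s)
      rw [c0] at this
      rw [this, zero_sub, abs_neg, abs_of_nonneg (hcl t s).1]
    let γ : ℝ → Y := fun s => ⟨fun t => c t (cl t s), by
      obtain ⟨B, hB⟩ := x.2
      refine ⟨B + max s 0, fun t => ?_⟩
      have := dist_triangle (o t) (x.1 t) (c t (cl t s))
      rw [hx] at this
      have h2 : cl t s ≤ max s 0 := min_le_left _ _
      linarith [hB t]⟩
    have hcltend : ∀ s ∈ Set.Icc 0 (dist x y), Tendsto (fun t => cl t s) U (𝓝 s) := by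
      intro s hs
      have : Tendsto (fun t => cl t s) U (𝓝 (min (max s 0) (dist x y))) :=
        tendsto_const_nhds.min (tend x y)
      rwa [max_eq_left hs.1, min_eq_left hs.2] at this
    refine ⟨fun s => SeparationQuotient.mk (γ s), ?_, ?_, ?_⟩
    · apply hmk
      apply tendsto_nhds_unique (tend (γ 0) x)
      have := hcltend 0 ⟨le_rfl, dist_nonneg⟩
      refine this.congr fun t => ?_
      rw [dist_comm]; exact (hx t 0).symm
    · apply hmk
      apply tendsto_nhds_unique (tend (γ (dist x y)) y)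
      have h1 := ((hcltend (dist x y) ⟨dist_nonneg, le_rfl⟩).sub (tend x y)).abs
      rw [sub_self, abs_zero] at h1
      refine h1.congr fun t => ?_
      have := hc t _ (hcl t (dist x y)) _ ⟨dist_nonneg, le_rfl⟩
      rw [c1] at this
      exact this.symm
    · intro s hs s' hs'
      rw [SeparationQuotient.dist_mk]
      apply tendsto_nhds_unique (tend (γ s) (γ s'))
      refine (((hcltend s hs).sub (hcltend s' hs')).abs).congr fun t => ?_
      exact (hc t _ (hcl t s) _ (hcl t s')).symm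
  · intro x y z v
    obtain ⟨x, rfl⟩ := hsurj x
    obtain ⟨y, rfl⟩ := hsurj y
    obtain ⟨z, rfl⟩ := hsurj z
    obtain ⟨v, rfl⟩ := hsurj v
    simp only [SeparationQuotient.dist_mk]
    exact le_of_tendsto_of_tendsto' ((tend x y).add (tend z v))
      ((((tend x z).add (tend y v)).max ((tend x v).add (tend y z))).add_const (2 * δ))
      fun t => fp t _ _ _ _
  · intro i
    rw [← SeparationQuotient.mk_smul, SeparationQuotient.dist_mk]
    exact le_of_tendsto' (tend oY _) fun t => gen t i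
  · intro x y hxy f hf
    obtain ⟨x, rfl⟩ := hsurj x
    obtain ⟨y, rfl⟩ := hsurj y
    simp only [← SeparationQuotient.mk_smul, SeparationQuotient.dist_mk] at hxy hf
    have e1 : ∀ᶠ t in U, R < dist (x.1 t) (y.1 t) := (tend x y).eventually (lt_mem_nhds hxy)
    have e2 : ∀ᶠ t in U, ∀ j, dist (x.1 t) (f j • x.1 t) < 6 * δ + 2 :=
      eventually_all.2 fun j => (tend x (f j • x)).eventually (gt_mem_nhds (hf j).1)
    have e3 : ∀ᶠ t in U, ∀ j, dist (y.1 t) (f j • y.1 t) < 6 * δ + 2 :=
      eventually_all.2 fun j => (tend y (f j • y)).eventually (gt_mem_nhds (hf j).2)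
    have e4 : ∀ᶠ t in U, ∀ i j, ((f i)⁻¹ * f j ∈ Ns t ↔ (f i)⁻¹ * f j ∈ N) :=
      eventually_all.2 fun i => eventually_all.2 fun j => hlim _
    obtain ⟨t, h1, h2, h3, h4⟩ := (e1.and (e2.and (e3.and e4))).exists
    obtain ⟨i, j, hij, hm⟩ := acy t _ _ h1 f fun j => ⟨h2 j, h3 j⟩
    exact ⟨i, j, hij, (h4 i j).1 hm⟩
  · simp only [← SeparationQuotient.mk_smul, SeparationQuotient.dist_mk]
    exact le_of_tendsto_of_tendsto' (((tend oY (w • oY)).add_const (2 * δ)).add_const 1)
      (tend oY ((w * w) • oY)) fun t => lox t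

theorem isClopen_mem {n : ℕ} (u : FreeGroup (Fin n)) :
    IsClopen {N : MarkedGroup n | u ∈ N.1} := by
  classical
  have hc : Continuous fun N : MarkedGroup n => (decide (u ∈ N.1) : Bool) := by
    have h1 : Continuous (fun N : MarkedGroup n => fun w : FreeGroup (Fin n) =>
      (@decide (w ∈ N.1) (Classical.propDecidable _) : Bool)) := continuous_induced_dom
    exact (continuous_apply u).comp h1
  have := (isClopen_discrete ({true} : Set Bool)).preimage hc
  convert this using 1
  ext N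
  simp

theorem isClosed_good {n : ℕ} (δ C R : ℝ) (M : ℕ) (w : FreeGroup (Fin n)) :
    IsClosed {N : MarkedGroup n | Good δ C R M w N.1} := by
  rw [← closure_subset_iff_isClosed]
  intro N hN
  obtain ⟨U, hU, hle⟩ := mem_closure_iff_ultrafilter.1 hN
  let K := {N : MarkedGroup n | Good δ C R M w N.1}
  have hr : Set.range (Subtype.val : K → MarkedGroup n) ∈ U := by
    rw [Subtype.range_coe]; exact hU
  refine good_limit (U.comap Subtype.val_injective hr) (fun t : K => t.1.1) N.1
    (fun t => t.2) fun u => ?_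
  have : ∀ᶠ N' in 𝓝 N, (u ∈ N'.1 ↔ u ∈ N.1) := by
    by_cases hu : u ∈ N.1
    · filter_upwards [(isClopen_mem u).isOpen.mem_nhds hu] with N' h
      exact ⟨fun _ => hu, fun _ => h⟩
    · filter_upwards [(isClopen_mem u).compl.isOpen.mem_nhds hu] with N' h
      exact ⟨fun h' => absurd h' h, fun h' => absurd h' hu⟩
  have h2 : ∀ᶠ N' : MarkedGroup n in (U : Filter (MarkedGroup n)), (u ∈ N'.1 ↔ u ∈ N.1) :=
    hle this
  exact Filter.tendsto_comap.eventually h2

end Pool.Agent.H840Z.MG
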