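import Pool.Agent.H840Z.MG.AHLimit

set_option autoImplicit false

open Filter Topology

namespace Pool.Agent.H840Z.MG

theorem encard_le_iff_fun {α : Type*} (S : Set α) (M : ℕ) :
    S.encard ≤ M ↔ ∀ f : Fin (M + 1) → α, (∀ j, f j ∈ S) → ∃ i j, i ≠ j ∧ f i = f j := by
  constructor
  · intro h f hf
    by_contra hcon
    push Not at hcon
    have hinj : Function.Injective f := fun i j hij => by
      by_contra hne; exact hcon i j hne hij
    have h1 : (Set.range f).encard ≤ S.encard :=
      Set.encard_le_encard (by rintro _ ⟨j, rfl⟩; exact hf j)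
    rw [← Set.image_univ, hinj.encard_image, Set.encard_univ] at h1
    have h2 := h1.trans h
    simp only [ENat.card_eq_coe_fintype_card, Fintype.card_fin] at h2
    have : M + 1 ≤ M := by exact_mod_cast h2
    omega
  · intro h
    by_contra hcon
    push Not at hcon
    have h1 : ((M + 1 : ℕ) : ℕ∞) ≤ S.encard := by
      push_cast
      exact Order.add_one_le_of_lt hcon
    obtain ⟨T, hT, hTc⟩ := Set.exists_subset_encard_eq h1
    have hfin : T.Finite := Set.finite_of_encard_eq_coe hTc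
    have hcard : hfin.toFinset.card = M + 1 := by
      have := hfin.encard_eq_coe_toFinset_card
      rw [hTc] at this
      exact_mod_cast this.symm
    let e := hfin.toFinset.equivFinOfCardEq hcard
    obtain ⟨i, j, hij, he⟩ := h (fun j => (e.symm j : α)) fun j =>
      hT (hfin.mem_toFinset.1 (e.symm j).2)
    exact hij (e.symm.injective (Subtype.ext he))

theorem action_iff_good {n : ℕ} (N : Subgroup (FreeGroup (Fin n))) [N.Normal] :
    (∃ (X : Type) (_ : MetricSpace X) (_ : MulAction (FreeGroup (Fin n) ⧸ N) X),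
      (∀ (g : FreeGroup (Fin n) ⧸ N) (x y : X), dist (g • x) (g • y) = dist x y) ∧
      IsGeodesic X ∧ IsGromovHyperbolic X ∧ IsAcylindrical (FreeGroup (Fin n) ⧸ N) X ∧
      ∃ x : X, ∀ B : ℝ, ∃ g : FreeGroup (Fin n) ⧸ N, B < dist x (g • x)) ↔
    ∃ (δ C R M : ℕ) (w : FreeGroup (Fin n)), Good δ C R M w N := by
  constructor
  · rintro ⟨X, mX, aX, iso, geo, ⟨δ, hδ⟩, acy, o, unb⟩
    have fp : FP X (⌈δ⌉₊ : ℝ) := fun x y z w => by
      have := hδ x y z w
      have h2 := Nat.le_ceil δ
      linarith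
    obtain ⟨g, hg⟩ := exists_sq iso fp geo acy o unb
    obtain ⟨w, rfl⟩ := QuotientGroup.mk_surjective g
    obtain ⟨R, M, hR⟩ := acy (6 * (⌈δ⌉₊ : ℝ) + 2) (by positivity)
    obtain ⟨C, hC⟩ : ∃ C : ℕ, ∀ i : Fin n,
        dist o ((QuotientGroup.mk (FreeGroup.of i) : FreeGroup (Fin n) ⧸ N) • o) ≤ C := by
      obtain ⟨B, hB⟩ := (Set.finite_range fun i : Fin n =>
        dist o ((QuotientGroup.mk (FreeGroup.of i) : FreeGroup (Fin n) ⧸ N) • o)).bddAbove
      exact ⟨⌈B⌉₊, fun i => (hB ⟨i, rfl⟩).trans (Nat.le_ceil B)⟩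
    let act : MulAction (FreeGroup (Fin n)) X := MulAction.compHom X (QuotientGroup.mk' N)
    have sm : ∀ (u : FreeGroup (Fin n)) (x : X),
        u • x = (QuotientGroup.mk u : FreeGroup (Fin n) ⧸ N) • x := fun _ _ => rfl
    refine ⟨⌈δ⌉₊, C, ⌈R⌉₊, M, w, X, mX, act, o, fun g x y => iso _ x y, ?_, geo, fp, hC, ?_, ?_⟩
    · intro u hu x
      rw [sm, (QuotientGroup.eq_one_iff u).2 hu, one_smul]
    · intro x y hxy f hf
      have := (encard_le_iff_fun _ M).1 (hR x y ((Nat.le_ceil R).trans hxy.le))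
        (fun j => (QuotientGroup.mk (f j) : FreeGroup (Fin n) ⧸ N))
        fun j => ⟨(hf j).1.le, (hf j).2.le⟩
      obtain ⟨i, j, hij, he⟩ := this
      exact ⟨i, j, hij, QuotientGroup.eq.1 he⟩
    · exact hg
  · rintro ⟨δ, C, R, M, w, X, mX, aX, o, iso, triv, geo, fp, gen, acy, lox⟩
    let ρ : (FreeGroup (Fin n) ⧸ N) →* Equiv.Perm X :=
      QuotientGroup.lift N (MulAction.toPermHom (FreeGroup (Fin n)) X) fun u hu => by
        ext x
        exact triv u hu x
    let act : MulAction (FreeGroup (Fin n) ⧸ N) X := MulAction.compHom X ρ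
    have sm : ∀ (u : FreeGroup (Fin n)) (x : X),
        (QuotientGroup.mk u : FreeGroup (Fin n) ⧸ N) • x = u • x := fun _ _ => rfl
    have iso' : ∀ (g : FreeGroup (Fin n) ⧸ N) (x y : X), dist (g • x) (g • y) = dist x y := by
      intro g x y
      obtain ⟨u, rfl⟩ := QuotientGroup.mk_surjective g
      rw [sm, sm, iso]
    refine ⟨X, mX, act, iso', geo, ⟨δ, fp⟩, ?_, o, ?_⟩
    · refine acyl_of_single iso' fp geo R M fun x y hxy => ?_
      rw [encard_le_iff_fun]
      intro f hf
      choose u hu using fun j => QuotientGroup.mk_surjective (f j)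
      obtain ⟨i, j, hij, he⟩ := acy x y hxy u fun j => by
        have := hf j
        rw [← hu j] at this
        exact this
      exact ⟨i, j, hij, by rw [← hu i, ← hu j]; exact QuotientGroup.eq.2 he⟩
    · exact unbounded_of_sq iso' fp o (QuotientGroup.mk w) lox

theorem vc_iff {n : ℕ} (N : Subgroup (FreeGroup (Fin n))) [N.Normal] :
    VirtuallyCyclic (FreeGroup (Fin n) ⧸ N) ↔
      ∃ (g : FreeGroup (Fin n)) (T : Finset (FreeGroup (Fin n))), ∀ w : FreeGroup (Fin n),
        ∃ t : FreeGroup (Fin n), ∃ m : ℤ, t ∈ T ∧ (g ^ m)⁻¹ * (t⁻¹ * w) ∈ N := by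
  classical
  constructor
  · rintro ⟨H, hH, hc⟩
    obtain ⟨g, hg⟩ := (Subgroup.isCyclic_iff_exists_zpowers_eq_top H).1 hc
    obtain ⟨g, rfl⟩ := QuotientGroup.mk_surjective g
    have : Finite ((FreeGroup (Fin n) ⧸ N) ⧸ H) := Subgroup.finite_quotient_of_finiteIndex
    have := Fintype.ofFinite ((FreeGroup (Fin n) ⧸ N) ⧸ H)
    refine ⟨g, Finset.univ.image fun c : (FreeGroup (Fin n) ⧸ N) ⧸ H => c.out.out, fun w => ?_⟩
    let c : (FreeGroup (Fin n) ⧸ N) ⧸ H :=
      QuotientGroup.mk (QuotientGroup.mk w : FreeGroup (Fin n) ⧸ N)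
    have h1 : (c.out)⁻¹ * (QuotientGroup.mk w : FreeGroup (Fin n) ⧸ N) ∈ H :=
      QuotientGroup.eq.1 c.out_eq
    obtain ⟨m, hm⟩ := Subgroup.mem_zpowers_iff.1 (hg.ge h1)
    refine ⟨c.out.out, m, Finset.mem_image_of_mem _ (Finset.mem_univ c), ?_⟩
    rw [← QuotientGroup.eq, QuotientGroup.mk_zpow, hm, QuotientGroup.mk_mul, QuotientGroup.mk_inv,
      QuotientGroup.out_eq']
  · rintro ⟨g, T, h⟩
    refine ⟨Subgroup.zpowers (QuotientGroup.mk g), ?_, inferInstance⟩
    have : Finite ((FreeGroup (Fin n) ⧸ N) ⧸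
        Subgroup.zpowers (QuotientGroup.mk g : FreeGroup (Fin n) ⧸ N)) := by
      refine Finite.of_surjective (fun t : T => (QuotientGroup.mk
        (QuotientGroup.mk t.1 : FreeGroup (Fin n) ⧸ N) : (FreeGroup (Fin n) ⧸ N) ⧸
          Subgroup.zpowers (QuotientGroup.mk g : FreeGroup (Fin n) ⧸ N))) ?_
      intro c
      obtain ⟨c, rfl⟩ := QuotientGroup.mk_surjective c
      obtain ⟨w, rfl⟩ := QuotientGroup.mk_surjective c
      obtain ⟨t, m, ht, hm⟩ := h w
      refine ⟨⟨t, ht⟩, QuotientGroup.eq.2 ?_⟩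
      rw [Subgroup.mem_zpowers_iff]
      refine ⟨m, ?_⟩
      rw [← QuotientGroup.eq, QuotientGroup.mk_zpow, QuotientGroup.mk_mul,
        QuotientGroup.mk_inv] at hm
      exact hm
    exact Subgroup.finiteIndex_of_finite_quotient

theorem measurable_mem' {n : ℕ} (u : FreeGroup (Fin n)) :
    @Measurable _ _ (borel (MarkedGroup n)) _ (fun N : MarkedGroup n => u ∈ N.1) := by
  let : MeasurableSpace (MarkedGroup n) := borel _
  have : BorelSpace (MarkedGroup n) := ⟨rfl⟩
  exact measurableSet_setOfPred.1 (isClopen_mem u).isOpen.measurableSet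

theorem measurable_vc (n : ℕ) :
    @Measurable _ _ (borel (MarkedGroup n)) _
      (fun N : MarkedGroup n => VirtuallyCyclic (FreeGroup (Fin n) ⧸ N.1)) := by
  let : MeasurableSpace (MarkedGroup n) := borel _
  simp only [vc_iff]
  exact Measurable.exists fun g => Measurable.exists fun T => Measurable.forall fun w =>
    Measurable.exists fun t => Measurable.exists fun m => measurable_const.and (measurable_mem' _)

theorem borel_AH (n : ℕ) : @MeasurableSet _ (borel (MarkedGroup n))
    {N : MarkedGroup n | AcylindricallyHyperbolic (FreeGroup (Fin n) ⧸ N.1)} := by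
  let : MeasurableSpace (MarkedGroup n) := borel _
  have : BorelSpace (MarkedGroup n) := ⟨rfl⟩
  rw [measurableSet_setOfPred]
  unfold AcylindricallyHyperbolic
  simp only [action_iff_good]
  exact (measurable_vc n).not.and (Measurable.exists fun δ => Measurable.exists fun C =>
    Measurable.exists fun R => Measurable.exists fun M => Measurable.exists fun w =>
      measurableSet_setOfPred.1 (isClosed_good _ _ _ _ _).measurableSet)

end Pool.Agent.H840Z.MG
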