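import Mathlib

set_option autoImplicit false

namespace Pool.Agent.H840Z.MG

/-- The space `𝒢_n` of `n`-generated marked groups: normal subgroups of the free group `F_n`. -/
def MarkedGroup (n : ℕ) : Type := {N : Subgroup (FreeGroup (Fin n)) // N.Normal}

open Classical in
/-- The topology of `𝒢_n`, induced from the product topology on `2 ^ F_n` through
characteristic functions. -/
noncomputable instance (n : ℕ) : TopologicalSpace (MarkedGroup n) :=
  TopologicalSpace.induced
    (fun N : MarkedGroup n => fun w : FreeGroup (Fin n) => (decide (w ∈ N.1) : Bool))
    inferInstance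

instance {n : ℕ} (N : MarkedGroup n) : N.1.Normal := N.2

/-- A group is virtually cyclic if it has a cyclic subgroup of finite index. -/
def VirtuallyCyclic (G : Type) [Group G] : Prop :=
  ∃ H : Subgroup G, H.FiniteIndex ∧ IsCyclic H

end Pool.Agent.H840Z.MG
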