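import Pool.Agent.H840Z.MG.Defs

set_option autoImplicit false

namespace Pool.Agent.H840Z.MG

/-- The coned-off Cayley graph of `G` with respect to `X ⊆ G` and subgroups `H i`: vertices are the
elements of `G` and the left cosets `g H_i`; `g` is joined to `g x` for `x ∈ X` and to `g H_i`. -/
def conedOff {G : Type} [Group G] {k : ℕ} (X : Set G) (H : Fin k → Subgroup G) :
    SimpleGraph (G ⊕ (Σ i : Fin k, G ⧸ H i)) :=
  SimpleGraph.fromRel fun a b =>
    match a, b with
    | Sum.inl g, Sum.inl h => g⁻¹ * h ∈ X
    | Sum.inl g, Sum.inr c => (QuotientGroup.mk g : G ⧸ H c.1) = c.2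
    | Sum.inr _, _ => False

/-- A connected graph whose path metric satisfies the Gromov four-point condition. -/
def IsHyperbolicGraph {V : Type} (Γ : SimpleGraph V) : Prop :=
  Γ.Connected ∧ ∃ δ : ℕ, ∀ x y z w : V,
    Γ.dist x y + Γ.dist z w ≤ max (Γ.dist x z + Γ.dist y w) (Γ.dist x w + Γ.dist y z) + 2 * δ

/-- A graph is fine if every (oriented) edge `u v` lies on finitely many circuits of each length;
a circuit of length `m + 3` is an injective cyclic sequence of consecutively adjacent vertices. -/
def IsFine {V : Type} (Γ : SimpleGraph V) : Prop :=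
  ∀ (u v : V) (m : ℕ), {c : Fin (m + 3) → V |
    Function.Injective c ∧ (∀ i, Γ.Adj (c i) (c (i + 1))) ∧ c 0 = u ∧ c 1 = v}.Finite

/-- Non-elementary relatively hyperbolic group: not virtually cyclic, and hyperbolic relative to a
finite collection of proper subgroups (hyperbolic and fine coned-off Cayley graph). -/
def NonElemRelHyperbolic (G : Type) [Group G] : Prop :=
  ¬ VirtuallyCyclic G ∧ ∃ (k : ℕ) (H : Fin k → Subgroup G), (∀ i, H i ≠ ⊤) ∧
    ∃ X : Set G, X.Finite ∧ IsHyperbolicGraph (conedOff X H) ∧ IsFine (conedOff X H)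

end Pool.Agent.H840Z.MG
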