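import Pool.Agent.H840Z.MG.RHDefs

set_option autoImplicit false

namespace Pool.Agent.H840Z.MG

open SimpleGraph

variable {V : Type} {Γ : SimpleGraph V}

/-- joined by a short walk avoiding `v` -/
def Near (Γ : SimpleGraph V) (v : V) (L : ℕ) (a b : V) : Prop :=
  ∃ p : Γ.Walk a b, p.length ≤ L ∧ v ∉ p.support

theorem Near.symm {v a b : V} {L : ℕ} (h : Near Γ v L a b) : Near Γ v L b a := by
  obtain ⟨p, h1, h2⟩ := h
  exact ⟨p.reverse, by simpa using h1, by simpa using h2⟩

theorem Near.trans {v a b c : V} {L L' M : ℕ} (h : Near Γ v L a b) (h' : Near Γ v L' b c)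
    (hM : L + L' ≤ M) : Near Γ v M a c := by
  obtain ⟨p, h1, h2⟩ := h
  obtain ⟨q, h3, h4⟩ := h'
  refine ⟨p.append q, by rw [Walk.length_append]; omega, ?_⟩
  rw [Walk.mem_support_append_iff]
  tauto

theorem near_of_adj {v a b : V} (h : Γ.Adj a b ∨ a = b) (ha : a ≠ v) (hb : b ≠ v) :
    Near Γ v 1 a b := by
  rcases h with h | rfl
  · exact ⟨Walk.cons h Walk.nil, by simp, by simp [ha.symm, hb.symm]⟩
  · exact ⟨Walk.nil, by simp, by simp [ha.symm]⟩

theorem geo_near (hc : Γ.Connected) {v a b : V} (h : Γ.dist a b < Γ.dist a v + Γ.dist v b) :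
    Near Γ v (Γ.dist a b) a b := by
  classical
  obtain ⟨p, hp⟩ := hc.exists_walk_length_eq_dist a b
  refine ⟨p, hp.le, fun hv => ?_⟩
  have h1 := dist_le (p.takeUntil v hv)
  have h2 := dist_le (p.dropUntil v hv)
  have h3 := congrArg Walk.length (p.take_spec hv)
  rw [Walk.length_append] at h3
  omega

theorem geo_point (hc : Γ.Connected) (a b : V) (t : ℕ) (ht : t ≤ Γ.dist a b) :
    ∃ z : V, Γ.dist a z = t ∧ Γ.dist z b + t = Γ.dist a b := by
  obtain ⟨p, hp⟩ := hc.exists_walk_length_eq_dist a b
  have h1 := dist_le (p.take t)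
  have h2 := dist_le (p.drop t)
  rw [Walk.take_length] at h1
  rw [Walk.drop_length] at h2
  have h3 := hc.dist_triangle (u := a) (v := p.getVert t) (w := b)
  refine ⟨p.getVert t, ?_, ?_⟩ <;> omega

/-- last vertex before `v` on a geodesic from `p` to `v` -/
def Gate (Γ : SimpleGraph V) (v p a : V) : Prop := Γ.Adj v a ∧ Γ.dist a p + 1 = Γ.dist v p

theorem exists_gate (hc : Γ.Connected) {v p : V} (h : p ≠ v) : ∃ a, Gate Γ v p a := by
  have : 0 < Γ.dist v p := hc.pos_dist_of_ne h.symm
  obtain ⟨z, h1, h2⟩ := geo_point hc v p 1 this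
  exact ⟨z, dist_eq_one_iff_adj.1 h1, h2⟩

theorem gate_self (hc : Γ.Connected) {v p a : V} (hp : Γ.Adj v p) (h : Gate Γ v p a) : a = p := by
  have h1 := dist_eq_one_iff_adj.2 hp
  have h2 := h.2
  exact (hc.dist_eq_zero_iff).1 (by omega)

theorem gate_near (hc : Γ.Connected) {δ : ℕ} (fp : ∀ x y z w : V,
    Γ.dist x y + Γ.dist z w ≤ max (Γ.dist x z + Γ.dist y w) (Γ.dist x w + Γ.dist y z) + 2 * δ)
    {v p q a b : V} (ha : Gate Γ v p a) (hb : Gate Γ v q b) (hpq : Γ.Adj p q ∨ p = q) :
    Near Γ v (8 * δ + 4) a b := by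
  have d1 : Γ.dist a v = 1 := dist_eq_one_iff_adj.2 ha.1.symm
  have d2 : Γ.dist b v = 1 := dist_eq_one_iff_adj.2 hb.1.symm
  have d1' : Γ.dist v a = 1 := by rw [dist_comm]; exact d1
  have d2' : Γ.dist v b = 1 := by rw [dist_comm]; exact d2
  have d3 : Γ.dist p q ≤ 1 := by
    rcases hpq with h | rfl
    · exact (dist_eq_one_iff_adj.2 h).le
    · simp
  have e1 := ha.2
  have e2 := hb.2
  have t1 := hc.dist_triangle (u := v) (v := p) (w := q)
  have t2 := hc.dist_triangle (u := v) (v := q) (w := p)
  rw [dist_comm (u := q) (v := p)] at t2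
  by_cases hcase : Γ.dist v p ≤ 2 * δ + 1
  · have hp : p ≠ v := by rintro rfl; simp at e1
    have hq : q ≠ v := by rintro rfl; simp at e2
    have n1 := geo_near hc (v := v) (a := a) (b := p) (by omega)
    have n2 := near_of_adj hpq hp hq
    have n3 := (geo_near hc (v := v) (a := b) (b := q) (by omega)).symm
    exact (n1.trans n2 le_rfl).trans n3 (by omega)
  · obtain ⟨p', a1, a2⟩ := geo_point hc a p (2 * δ) (by omega)
    obtain ⟨q', b1, b2⟩ := geo_point hc b q (2 * δ) (by omega)
    have s1 := hc.dist_triangle (u := v) (v := a) (w := p')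
    have s2 := hc.dist_triangle (u := v) (v := p') (w := p)
    have s3 := hc.dist_triangle (u := v) (v := b) (w := q')
    have s4 := hc.dist_triangle (u := v) (v := q') (w := q)
    have f1 := fp p' q v p
    have f2 := fp p' q' v q
    rw [dist_comm (u := p') (v := v), dist_comm (u := q) (v := p), dist_comm (u := q) (v := v)] at f1
    rw [dist_comm (u := p') (v := v), dist_comm (u := q') (v := v)] at f2
    have n1 := geo_near hc (v := v) (a := a) (b := p') (by omega)
    have n2 := geo_near hc (v := v) (a := p') (b := q') (by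
      rw [dist_comm (u := p') (v := v)]; omega)
    have n3 := (geo_near hc (v := v) (a := b) (b := q') (by omega)).symm
    exact (n1.trans n2 le_rfl).trans n3 (by omega)

theorem finite_near (hf : IsFine Γ) {v a : V} (ha : Γ.Adj v a) (L : ℕ) :
    {b | Γ.Adj v b ∧ Near Γ v L a b}.Finite := by
  classical
  have hfin : ({a} ∪ ⋃ m ∈ Finset.range L, (fun c : Fin (m + 3) → V => c (Fin.last (m + 2))) ''
      {c : Fin (m + 3) → V |
        Function.Injective c ∧ (∀ i, Γ.Adj (c i) (c (i + 1))) ∧ c 0 = v ∧ c 1 = a}).Finite :=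
    (Set.finite_singleton a).union
      (Set.Finite.biUnion (Finset.finite_toSet _) fun m _ => (hf v a m).image _)
  refine hfin.subset ?_
  rintro b ⟨hb, p, hp1, hp2⟩
  by_cases hab : b = a
  · left; exact hab
  right
  set q := p.bypass with hq
  have hqp : q.IsPath := p.bypass_isPath
  have hql : q.length ≤ L := p.length_bypass_le_length.trans hp1
  have hqv : v ∉ q.support := fun h => hp2 (p.support_bypass_subset_support h)
  have hq0 : q.length ≠ 0 := fun h => hab (Walk.eq_of_length_eq_zero h).symm
  obtain ⟨m, hm⟩ : ∃ m, q.length = m + 1 := ⟨q.length - 1, by omega⟩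
  simp only [Set.mem_iUnion]
  refine ⟨m, by simp; omega, fun i => if i.val = 0 then v else q.getVert (i.val - 1),
    ⟨?_, ?_, ?_, ?_⟩, ?_⟩
  · intro i j hij
    have hi := i.2
    have hj := j.2
    by_cases h1 : i.val = 0 <;> by_cases h2 : j.val = 0
    · exact Fin.ext (by omega)
    · simp only [h1, h2, if_true, if_false] at hij
      exact absurd (hij ▸ q.getVert_mem_support _) hqv
    · simp only [h1, h2, if_true, if_false] at hij
      exact absurd (hij ▸ q.getVert_mem_support _) hqv
    · simp only [h1, h2, if_false] at hij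
      have := hqp.getVert_injOn (by simp; omega : i.val - 1 ∈ {i | i ≤ q.length})
        (by simp; omega : j.val - 1 ∈ {i | i ≤ q.length}) hij
      exact Fin.ext (by omega)
  · intro i
    have hi := i.2
    have hv := Fin.val_add_one i
    by_cases h1 : i = Fin.last (m + 2)
    · rw [if_pos h1] at hv
      have h2 : i.val = m + 2 := by rw [h1]; rfl
      simp only [hv, h2, if_true]
      rw [if_neg (by omega)]
      have : m + 2 - 1 = q.length := by omega
      rw [this, Walk.getVert_length]
      exact hb.symm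
    · rw [if_neg h1] at hv
      have h2 : i.val ≠ m + 2 := fun h => h1 (Fin.ext h)
      simp only [hv]
      rw [if_neg (Nat.succ_ne_zero _)]
      by_cases h3 : i.val = 0
      · rw [if_pos h3, h3]
        simpa using ha
      · rw [if_neg h3]
        have : i.val + 1 - 1 = (i.val - 1) + 1 := by omega
        rw [this]
        exact q.adj_getVert_succ (by omega)
  · simp
  · simp
  · simp only [Fin.val_last]
    rw [if_neg (by omega)]
    have : m + 2 - 1 = q.length := by omega
    rw [this, Walk.getVert_length]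

theorem Near.map {v a b : V} {L : ℕ} (f : Γ →g Γ) (hf : Function.Injective f)
    (h : Near Γ v L a b) : Near Γ (f v) L (f a) (f b) := by
  obtain ⟨p, h1, h2⟩ := h
  refine ⟨p.map f, by simpa using h1, ?_⟩
  rw [Walk.support_map, List.mem_map]
  rintro ⟨x, hx, hxv⟩
  exact h2 (hf hxv ▸ hx)

section Meas
variable {α : Type} [MeasurableSpace α] {W : α → Type} (Δ : ∀ a, SimpleGraph (W a))
  {V₀ : Type} [Countable V₀] (φ : ∀ a, V₀ → W a) (hφ : ∀ a, Function.Surjective (φ a))
  (hEq : ∀ x y, Measurable fun a => φ a x = φ a y)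
  (hAdj : ∀ x y, Measurable fun a => (Δ a).Adj (φ a x) (φ a y))

include hφ hEq hAdj

theorem meas_walk (m : ℕ) : ∀ x y : V₀,
    Measurable fun a => ∃ p : (Δ a).Walk (φ a x) (φ a y), p.length = m := by
  induction m with
  | zero =>
    intro x y
    have : (fun a => ∃ p : (Δ a).Walk (φ a x) (φ a y), p.length = 0) =
        fun a => φ a x = φ a y := by
      funext a
      apply propext
      constructor
      · rintro ⟨p, hp⟩; exact Walk.eq_of_length_eq_zero hp
      · intro h; exact ⟨Walk.nil.copy rfl h, by simp⟩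
    rw [this]; exact hEq x y
  | succ m ih =>
    intro x y
    have : (fun a => ∃ p : (Δ a).Walk (φ a x) (φ a y), p.length = m + 1) =
        fun a => ∃ z, (Δ a).Adj (φ a x) (φ a z) ∧
          ∃ p : (Δ a).Walk (φ a z) (φ a y), p.length = m := by
      funext a
      apply propext
      constructor
      · rintro ⟨p, hp⟩
        generalize φ a x = u at p hp
        generalize φ a y = u' at p hp
        cases p with
        | nil => simp at hp
        | @cons _ w _ h q =>
          obtain ⟨z, rfl⟩ := hφ a w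
          exact ⟨z, h, q, by simpa using hp⟩
      · rintro ⟨z, h, q, hq⟩
        exact ⟨Walk.cons h q, by simp [hq]⟩
    rw [this]
    exact Measurable.exists fun z => (hAdj x z).and (ih z y)

theorem meas_reach (x y : V₀) : Measurable fun a => (Δ a).Reachable (φ a x) (φ a y) := by
  have : (fun a => (Δ a).Reachable (φ a x) (φ a y)) =
      fun a => ∃ m, ∃ p : (Δ a).Walk (φ a x) (φ a y), p.length = m := by
    funext a
    apply propext
    constructor
    · rintro ⟨p⟩; exact ⟨_, p, rfl⟩
    · rintro ⟨_, p, _⟩; exact ⟨p⟩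
  rw [this]
  exact Measurable.exists fun m => meas_walk Δ φ hφ hEq hAdj m x y

theorem meas_dist (x y : V₀) : Measurable fun a => (Δ a).dist (φ a x) (φ a y) := by
  apply measurable_of_Iic
  intro m
  have : (fun a => (Δ a).dist (φ a x) (φ a y)) ⁻¹' Set.Iic m =
      {a | (∃ l, l ≤ m ∧ ∃ p : (Δ a).Walk (φ a x) (φ a y), p.length = l) ∨
        ¬ (Δ a).Reachable (φ a x) (φ a y)} := by
    ext a
    simp only [Set.mem_preimage, Set.mem_Iic, Set.mem_ofPred_eq]
    constructor
    · intro h
      by_cases hr : (Δ a).Reachable (φ a x) (φ a y)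
      · obtain ⟨p, hp⟩ := hr.exists_walk_length_eq_dist
        exact Or.inl ⟨_, h, p, hp⟩
      · exact Or.inr hr
    · rintro (⟨l, hl, p, hp⟩ | h)
      · have := dist_le p; omega
      · rw [dist_eq_zero_of_not_reachable h]; exact Nat.zero_le _
  rw [this, measurableSet_setOfPred]
  exact (Measurable.exists fun l => measurable_const.and
    (meas_walk Δ φ hφ hEq hAdj l x y)).or (meas_reach Δ φ hφ hEq hAdj x y).not

theorem meas_hyp : Measurable fun a => IsHyperbolicGraph (Δ a) := by
  have : (fun a => IsHyperbolicGraph (Δ a)) = fun a =>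
      ((∀ x y, (Δ a).Reachable (φ a x) (φ a y)) ∧ Nonempty V₀) ∧ ∃ δ : ℕ, ∀ x y z w : V₀,
      (Δ a).dist (φ a x) (φ a y) + (Δ a).dist (φ a z) (φ a w) ≤
        max ((Δ a).dist (φ a x) (φ a z) + (Δ a).dist (φ a y) (φ a w))
          ((Δ a).dist (φ a x) (φ a w) + (Δ a).dist (φ a y) (φ a z)) + 2 * δ := by
    funext a
    apply propext
    unfold IsHyperbolicGraph
    rw [connected_iff, Preconnected]
    simp only [(hφ a).forall]
    have : Nonempty (W a) ↔ Nonempty V₀ :=
      ⟨fun ⟨w⟩ => ⟨(hφ a w).choose⟩, fun ⟨x⟩ => ⟨φ a x⟩⟩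
    rw [this]
  rw [this]
  have md := meas_dist Δ φ hφ hEq hAdj
  refine ((Measurable.forall fun x => Measurable.forall fun y =>
    meas_reach Δ φ hφ hEq hAdj x y).and measurable_const).and
    (Measurable.exists fun δ => Measurable.forall fun x => Measurable.forall fun y =>
      Measurable.forall fun z => Measurable.forall fun w => ?_)
  exact measurableSet_setOfPred.1 (measurableSet_le ((md x y).add (md z w))
    ((((md x z).add (md y w)).max ((md x w).add (md y z))).add measurable_const))

theorem meas_fine : Measurable fun a => IsFine (Δ a) := by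
  classical
  have : (fun a => IsFine (Δ a)) = fun a => ∀ (u v : V₀) (m : ℕ),
      ∃ T : Finset (Fin (m + 3) → V₀), ∀ c : Fin (m + 3) → V₀,
        ((∀ i j, φ a (c i) = φ a (c j) → i = j) ∧ (∀ i, (Δ a).Adj (φ a (c i)) (φ a (c (i + 1)))) ∧
          φ a (c 0) = φ a u ∧ φ a (c 1) = φ a v) → ∃ l, l ∈ T ∧ ∀ i, φ a (c i) = φ a (l i) := by
    funext a
    apply propext
    unfold IsFine
    simp only [(hφ a).forall]
    refine forall_congr' fun u => forall_congr' fun v => forall_congr' fun m => ?_
    choose ψ hψ using hφ a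
    constructor
    · intro h
      refine ⟨h.toFinset.image fun c i => ψ (c i), fun c hc => ?_⟩
      refine ⟨fun i => ψ (φ a (c i)), ?_, fun i => (hψ _).symm⟩
      refine Finset.mem_image.2 ⟨fun i => φ a (c i), ?_, rfl⟩
      rw [Set.Finite.mem_toFinset]
      exact ⟨fun i j h => hc.1 i j h, hc.2⟩
    · rintro ⟨T, hT⟩
      refine (T.finite_toSet.image fun l i => φ a (l i)).subset ?_
      rintro c ⟨h1, h2, h3, h4⟩
      obtain ⟨l, hl, he⟩ := hT (fun i => ψ (c i)) (by
        simp only [hψ]
        exact ⟨fun i j h => h1 h, h2, h3, h4⟩)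
      refine ⟨l, hl, funext fun i => ?_⟩
      exact (he i).symm.trans (hψ _)
  rw [this]
  refine Measurable.forall fun u => Measurable.forall fun v => Measurable.forall fun m =>
    Measurable.exists fun T => Measurable.forall fun c => Measurable.imp ?_ ?_
  · exact (Measurable.forall fun i => Measurable.forall fun j =>
      (hEq _ _).imp measurable_const).and ((Measurable.forall fun i => hAdj _ _).and
        ((hEq _ _).and (hEq _ _)))
  · exact Measurable.exists fun l => measurable_const.and (Measurable.forall fun i => hEq _ _)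

end Meas

end Pool.Agent.H840Z.MG
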