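import Pool.Agent.H840Z.MG.RHGraph
import Pool.Agent.H840Z.MG.AHMain

set_option autoImplicit false

namespace Pool.Agent.H840Z.MG

open SimpleGraph

section
variable {G : Type} [Group G] {k : ℕ} {X : Set G} {H : Fin k → Subgroup G}

theorem adj_ll (g h : G) : (conedOff X H).Adj (Sum.inl g) (Sum.inl h) ↔
    g ≠ h ∧ (g⁻¹ * h ∈ X ∨ h⁻¹ * g ∈ X) := by
  simp [conedOff, fromRel_adj]

theorem adj_lr (g : G) (c : Σ i : Fin k, G ⧸ H i) : (conedOff X H).Adj (Sum.inl g) (Sum.inr c) ↔
    (QuotientGroup.mk g : G ⧸ H c.1) = c.2 := by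
  simp [conedOff, fromRel_adj]

theorem adj_rl (g : G) (c : Σ i : Fin k, G ⧸ H i) : (conedOff X H).Adj (Sum.inr c) (Sum.inl g) ↔
    (QuotientGroup.mk g : G ⧸ H c.1) = c.2 := by
  rw [adj_comm, adj_lr]

theorem adj_rr (c d : Σ i : Fin k, G ⧸ H i) : ¬ (conedOff X H).Adj (Sum.inr c) (Sum.inr d) := by
  simp [conedOff, fromRel_adj]

/-- left multiplication on vertices -/
def lmul (H : Fin k → Subgroup G) (g : G) :
    (G ⊕ (Σ i : Fin k, G ⧸ H i)) → (G ⊕ (Σ i : Fin k, G ⧸ H i))
  | Sum.inl h => Sum.inl (g * h)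
  | Sum.inr c => Sum.inr ⟨c.1, g • c.2⟩

theorem lmul_inj (g : G) : Function.Injective (lmul H g) := by
  have : Function.LeftInverse (lmul H g⁻¹) (lmul H g) := by
    rintro (h | ⟨i, c⟩) <;> simp [lmul]
  exact this.injective

/-- left multiplication as a graph homomorphism -/
def lmulHom (X : Set G) (H : Fin k → Subgroup G) (g : G) : conedOff X H →g conedOff X H where
  toFun := lmul H g
  map_rel' := by
    rintro (a | ⟨i, a⟩) (b | ⟨j, b⟩) h
    · rw [adj_ll] at h
      simp only [lmul, adj_ll]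
      refine ⟨fun e => h.1 (mul_left_cancel e), ?_⟩
      simpa [mul_assoc] using h.2
    · rw [adj_lr] at h
      simp only [lmul, adj_lr] at h ⊢
      rw [← h]; rfl
    · rw [adj_rl] at h
      simp only [lmul, adj_rl] at h ⊢
      rw [← h]; rfl
    · exact absurd h (adj_rr _ _)

theorem closure_eq_top (hc : (conedOff X H).Connected) :
    Subgroup.closure (X ∪ ⋃ i, (H i : Set G)) = ⊤ := by
  set K := Subgroup.closure (X ∪ ⋃ i, (H i : Set G)) with hK
  let P : (G ⊕ (Σ i : Fin k, G ⧸ H i)) → Prop := fun v =>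
    match v with
    | Sum.inl g => g ∈ K
    | Sum.inr c => ∃ g ∈ K, (QuotientGroup.mk g : G ⧸ H c.1) = c.2
  have hX : ∀ x ∈ X, x ∈ K := fun x hx => Subgroup.subset_closure (Or.inl hx)
  have hH : ∀ i, ∀ x ∈ H i, x ∈ K := fun i x hx =>
    Subgroup.subset_closure (Or.inr (Set.mem_iUnion.2 ⟨i, hx⟩))
  have step : ∀ a b, (conedOff X H).Adj a b → P a → P b := by
    rintro (a | ⟨i, a⟩) (b | ⟨j, b⟩) h ha
    · rw [adj_ll] at h
      change a ∈ K at ha
      change b ∈ K
      rcases h.2 with h | h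
      · simpa using K.mul_mem ha (hX _ h)
      · simpa using K.mul_mem ha (K.inv_mem (hX _ h))
    · rw [adj_lr] at h
      exact ⟨a, ha, h⟩
    · rw [adj_rl] at h
      obtain ⟨g, hg, he⟩ := ha
      change b ∈ K
      have := QuotientGroup.eq.1 (he.trans h.symm)
      simpa using K.mul_mem hg (hH _ _ this)
    · exact absurd h (adj_rr _ _)
  have walk : ∀ a b, (conedOff X H).Walk a b → P a → P b := by
    intro a b p
    induction p with
    | nil => exact id
    | cons h _ ih => exact fun ha => ih (step _ _ h ha)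
  rw [eq_top_iff]
  intro g _
  obtain ⟨p⟩ := hc (Sum.inl 1) (Sum.inl g)
  exact walk _ _ p K.one_mem

/-- peripheral subgroups of a finitely generated relatively hyperbolic group are finitely
generated -/
theorem peripheral_fg (hG : Group.FG G) (hh : IsHyperbolicGraph (conedOff X H))
    (hf : IsFine (conedOff X H)) (i : Fin k) : (H i).FG := by
  classical
  obtain ⟨hc, δ, fp⟩ := hh
  obtain ⟨T, hT, hTtop⟩ : ∃ T : Finset G, (T : Set G) ⊆ (X ∪ ⋃ i, (H i : Set G)) ∧
      Subgroup.closure (T : Set G) = ⊤ := by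
    obtain ⟨A, hA⟩ := hG.out
    have h1 : ∀ a : G, ∃ T : Finset G, (T : Set G) ⊆ (X ∪ ⋃ i, (H i : Set G)) ∧
        a ∈ Subgroup.closure (T : Set G) := by
      intro a
      have : a ∈ Subgroup.closure (X ∪ ⋃ i, (H i : Set G)) := by
        rw [closure_eq_top hc]; trivial
      induction this using Subgroup.closure_induction with
      | mem x hx => exact ⟨{x}, by simpa using hx, Subgroup.subset_closure (by simp)⟩
      | one => exact ⟨∅, by simp, Subgroup.one_mem _⟩
      | mul x y _ _ hx hy =>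
        obtain ⟨T1, h1, h2⟩ := hx
        obtain ⟨T2, h3, h4⟩ := hy
        refine ⟨T1 ∪ T2, by rw [Finset.coe_union]; exact Set.union_subset h1 h3, ?_⟩
        rw [Finset.coe_union]
        exact Subgroup.mul_mem _ (Subgroup.closure_mono Set.subset_union_left h2)
          (Subgroup.closure_mono Set.subset_union_right h4)
      | inv x _ hx =>
        obtain ⟨T1, h1, h2⟩ := hx
        exact ⟨T1, h1, Subgroup.inv_mem _ h2⟩
    choose T hT1 hT2 using h1
    refine ⟨A.biUnion T, ?_, ?_⟩
    · intro x hx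
      rw [Finset.mem_coe, Finset.mem_biUnion] at hx
      obtain ⟨a, _, hx⟩ := hx
      exact hT1 a hx
    · rw [eq_top_iff, ← hA, Subgroup.closure_le]
      intro a ha
      refine Subgroup.closure_mono ?_ (hT2 a)
      intro x hx
      rw [Finset.mem_coe, Finset.mem_biUnion]
      exact ⟨a, ha, hx⟩
  set Γ := conedOff X H with hΓ
  let v : G ⊕ (Σ i : Fin k, G ⧸ H i) := Sum.inr ⟨i, QuotientGroup.mk 1⟩
  have hv : ∀ g : G, Γ.Adj v (Sum.inl g) ↔ g ∈ H i := by
    intro g
    rw [hΓ, adj_rl, QuotientGroup.eq]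
    simp
  have hv' : ∀ a, Γ.Adj v a → ∃ g ∈ H i, a = Sum.inl g := by
    rintro (g | c) h
    · exact ⟨g, (hv g).1 h, rfl⟩
    · exact absurd h (adj_rr _ _)
  let S : Set G := {g | Γ.Adj v (Sum.inl g) ∧ Near Γ v (8 * δ + 4) (Sum.inl 1) (Sum.inl g)}
  have hS : S.Finite :=
    (finite_near hf ((hv 1).2 (H i).one_mem) (8 * δ + 4)).preimage Sum.inl_injective.injOn
  let K := Subgroup.closure (S ∪ ((T : Set G) ∩ H i))
  have hKH : K ≤ H i := by
    rw [Subgroup.closure_le]
    rintro x (hx | hx)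
    · exact (hv x).1 hx.1
    · exact hx.2
  have hnear : ∀ a b : G, a ∈ H i → b ∈ H i →
      Near Γ v (8 * δ + 4) (Sum.inl a) (Sum.inl b) → a ∈ K → b ∈ K := by
    intro a b ha hb hn haK
    have h1 := hn.map (lmulHom X H a⁻¹) (lmul_inj a⁻¹)
    have e1 : lmulHom X H a⁻¹ v = v := by
      change Sum.inr (⟨i, QuotientGroup.mk (a⁻¹ * 1)⟩ : Σ i : Fin k, G ⧸ H i) = _
      congr 2
      rw [QuotientGroup.eq]
      simpa using ha
    have e2 : lmulHom X H a⁻¹ (Sum.inl a) = Sum.inl 1 := by
      change Sum.inl (a⁻¹ * a) = _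
      rw [inv_mul_cancel]
    have e3 : lmulHom X H a⁻¹ (Sum.inl b) = Sum.inl (a⁻¹ * b) := rfl
    rw [e1, e2, e3] at h1
    have : a⁻¹ * b ∈ K := Subgroup.subset_closure (Or.inl
      ⟨(hv _).2 ((H i).mul_mem ((H i).inv_mem ha) hb), h1⟩)
    simpa using K.mul_mem haK this
  -- the property carried along words
  let P : (G ⊕ (Σ i : Fin k, G ⧸ H i)) → Prop := fun p =>
    ∀ a : G, Gate Γ v p (Sum.inl a) → a ∈ K
  have hstep : ∀ p q, p ≠ v → (Γ.Adj p q ∨ p = q) → P p → P q := by
    intro p q hp hpq hP b hb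
    obtain ⟨a, ha⟩ := exists_gate hc hp
    obtain ⟨a, haH, rfl⟩ := hv' a ha.1
    exact hnear a b haH ((hv b).1 hb.1) (gate_near hc fp ha hb hpq) (hP a ha)
  have hl : ∀ g : G, (Sum.inl g : G ⊕ (Σ i : Fin k, G ⧸ H i)) ≠ v := fun g => Sum.inl_ne_inr
  have hgen : ∀ g y : G, (y ∈ T ∨ y⁻¹ ∈ T) → P (Sum.inl g) → P (Sum.inl (g * y)) := by
    intro g y hy hP
    have hy' : (y ∈ X ∨ y⁻¹ ∈ X) ∨ ∃ j, y ∈ H j := by
      rcases hy with hy | hy
      · rcases hT hy with h | h
        · exact Or.inl (Or.inl h)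
        · exact Or.inr (Set.mem_iUnion.1 h)
      · rcases hT hy with h | h
        · exact Or.inl (Or.inr h)
        · obtain ⟨j, hj⟩ := Set.mem_iUnion.1 h
          exact Or.inr ⟨j, (H j).inv_mem_iff.1 hj⟩
    rcases hy' with hy' | ⟨j, hj⟩
    · refine hstep _ _ (hl g) ?_ hP
      by_cases e : g = g * y
      · right; rw [← e]
      · left
        rw [hΓ, adj_ll]
        exact ⟨e, by simpa using hy'⟩
    · let m : G ⊕ (Σ i : Fin k, G ⧸ H i) := Sum.inr ⟨j, QuotientGroup.mk g⟩
      have a1 : Γ.Adj (Sum.inl g) m := by rw [hΓ, adj_lr]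
      have a2 : Γ.Adj m (Sum.inl (g * y)) := by
        rw [hΓ, adj_rl, QuotientGroup.eq]
        simpa using hj
      by_cases hm : m = v
      · rw [hm] at a1 a2
        have g1 := (hv g).1 a1.symm
        have g2 := (hv _).1 a2
        have gy : y ∈ H i := by simpa using (H i).mul_mem ((H i).inv_mem g1) g2
        intro b hb
        have eb := Sum.inl_injective (gate_self hc a2 hb)
        have gK : g ∈ K := hP g ⟨a1.symm, by
          rw [dist_self, dist_eq_one_iff_adj.2 a1.symm]⟩
        have yK : y ∈ K := by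
          rcases hy with hy | hy
          · exact Subgroup.subset_closure (Or.inr ⟨hy, gy⟩)
          · exact K.inv_mem_iff.1 (Subgroup.subset_closure (Or.inr ⟨hy, (H i).inv_mem gy⟩))
        rw [eb]
        exact K.mul_mem gK yK
      · exact hstep _ _ hm (Or.inl a2) (hstep _ _ (hl g) (Or.inl a1) hP)
  have hall : ∀ g : G, P (Sum.inl g) := by
    intro g
    have hg : g ∈ Subgroup.closure (T : Set G) := by rw [hTtop]; trivial
    induction hg using Subgroup.closure_induction_right with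
    | one =>
      intro a ha
      have := Sum.inl_injective (gate_self hc ((hv 1).2 (H i).one_mem) ha)
      rw [this]; exact K.one_mem
    | mul_right x _ y hy ih => exact hgen x y (Or.inl hy) ih
    | mul_inv_cancel x _ y hy ih => exact hgen x y⁻¹ (Or.inr (by simpa using hy)) ih
  have hHK : H i ≤ K := by
    intro g hg
    have a1 := (hv g).2 hg
    exact hall g g ⟨a1, by rw [dist_self, dist_eq_one_iff_adj.2 a1]⟩
  rw [Subgroup.fg_iff]
  exact ⟨_, le_antisymm hKH hHK, hS.union (T.finite_toSet.inter_of_left _)⟩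

end

theorem rh_iff {n : ℕ} (N : Subgroup (FreeGroup (Fin n))) [N.Normal] :
    (∃ (k : ℕ) (H : Fin k → Subgroup (FreeGroup (Fin n) ⧸ N)), (∀ i, H i ≠ ⊤) ∧
      ∃ X : Set (FreeGroup (Fin n) ⧸ N), X.Finite ∧ IsHyperbolicGraph (conedOff X H) ∧
        IsFine (conedOff X H)) ↔
    ∃ (k : ℕ) (Y : Fin k → Finset (FreeGroup (Fin n))) (X : Finset (FreeGroup (Fin n))),
      (∀ i, (Subgroup.closure (Y i : Set (FreeGroup (Fin n)))).map (QuotientGroup.mk' N) ≠ ⊤) ∧
      IsHyperbolicGraph (conedOff (QuotientGroup.mk' N '' (X : Set (FreeGroup (Fin n))))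
        fun i => (Subgroup.closure (Y i : Set (FreeGroup (Fin n)))).map (QuotientGroup.mk' N)) ∧
      IsFine (conedOff (QuotientGroup.mk' N '' (X : Set (FreeGroup (Fin n))))
        fun i => (Subgroup.closure (Y i : Set (FreeGroup (Fin n)))).map (QuotientGroup.mk' N)) := by
  classical
  have lift : ∀ S : Set (FreeGroup (Fin n) ⧸ N), S.Finite → ∃ T : Finset (FreeGroup (Fin n)),
      QuotientGroup.mk' N '' (T : Set (FreeGroup (Fin n))) = S := by
    intro S hS
    refine ⟨hS.toFinset.image Quotient.out, ?_⟩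
    rw [Finset.coe_image, Set.image_image]
    simp
  constructor
  · rintro ⟨k, H, hne, X, hX, hh, hf⟩
    have hG : Group.FG (FreeGroup (Fin n) ⧸ N) := inferInstance
    have h1 : ∀ i, ∃ Y : Finset (FreeGroup (Fin n)),
        (Subgroup.closure (Y : Set (FreeGroup (Fin n)))).map (QuotientGroup.mk' N) = H i := by
      intro i
      obtain ⟨S, hS, hSf⟩ := (Subgroup.fg_iff _).1 (peripheral_fg hG hh hf i)
      obtain ⟨T, hT⟩ := lift S hSf
      exact ⟨T, by rw [MonoidHom.map_closure, hT, hS]⟩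
    choose Y hY using h1
    obtain ⟨X0, rfl⟩ := lift X hX
    have : H = fun i => (Subgroup.closure (Y i : Set (FreeGroup (Fin n)))).map
      (QuotientGroup.mk' N) := funext fun i => (hY i).symm
    subst this
    exact ⟨k, Y, X0, hne, hh, hf⟩
  · rintro ⟨k, Y, X, hne, hh, hf⟩
    exact ⟨k, _, hne, _, X.finite_toSet.image _, hh, hf⟩

theorem borel_RH (n : ℕ) : @MeasurableSet _ (borel (MarkedGroup n))
    {N : MarkedGroup n | NonElemRelHyperbolic (FreeGroup (Fin n) ⧸ N.1)} := by
  let : MeasurableSpace (MarkedGroup n) := borel _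
  rw [measurableSet_setOfPred]
  unfold NonElemRelHyperbolic
  simp only [rh_iff]
  refine (measurable_vc n).not.and (Measurable.exists fun k => Measurable.exists fun Y =>
    Measurable.exists fun X => ?_)
  let F := FreeGroup (Fin n)
  have mq : ∀ a b : F, Measurable fun N : MarkedGroup n =>
      (QuotientGroup.mk a : F ⧸ N.1) = QuotientGroup.mk b := by
    intro a b
    simp only [QuotientGroup.eq]
    exact measurable_mem' _
  have mH : ∀ (K : Subgroup F) (a : F), Measurable fun N : MarkedGroup n =>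
      (QuotientGroup.mk a : F ⧸ N.1) ∈ K.map (QuotientGroup.mk' N.1) := by
    intro K a
    simp only [Subgroup.mem_map, QuotientGroup.mk'_apply]
    exact Measurable.exists fun u => measurable_const.and (mq u a)
  have mX : ∀ a : F, Measurable fun N : MarkedGroup n =>
      (QuotientGroup.mk a : F ⧸ N.1) ∈ QuotientGroup.mk' N.1 '' (X : Set F) := by
    intro a
    simp only [Set.mem_image, QuotientGroup.mk'_apply]
    exact Measurable.exists fun u => measurable_const.and (mq u a)
  let Hs : ∀ N : MarkedGroup n, Fin k → Subgroup (F ⧸ N.1) := fun N i =>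
    (Subgroup.closure (Y i : Set F)).map (QuotientGroup.mk' N.1)
  have mc : ∀ (i : Fin k) (a b : F), Measurable fun N : MarkedGroup n =>
      (QuotientGroup.mk (QuotientGroup.mk a : F ⧸ N.1) : (F ⧸ N.1) ⧸ Hs N i) =
        QuotientGroup.mk (QuotientGroup.mk b) := by
    intro i a b
    simp only [QuotientGroup.eq]
    exact mH _ (a⁻¹ * b)
  let φ : ∀ N : MarkedGroup n, (F ⊕ (Fin k × F)) → ((F ⧸ N.1) ⊕ (Σ i : Fin k, (F ⧸ N.1) ⧸ Hs N i)) :=
    fun N x => match x with
      | Sum.inl a => Sum.inl (QuotientGroup.mk a)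
      | Sum.inr p => Sum.inr ⟨p.1, QuotientGroup.mk (QuotientGroup.mk p.2)⟩
  have hφ : ∀ N, Function.Surjective (φ N) := by
    rintro N (g | ⟨i, c⟩)
    · obtain ⟨a, rfl⟩ := QuotientGroup.mk_surjective g
      exact ⟨Sum.inl a, rfl⟩
    · obtain ⟨g, rfl⟩ := QuotientGroup.mk_surjective c
      obtain ⟨a, rfl⟩ := QuotientGroup.mk_surjective g
      exact ⟨Sum.inr (i, a), rfl⟩
  have hEq : ∀ x y, Measurable fun N => φ N x = φ N y := by
    rintro (a | ⟨i, a⟩) (b | ⟨j, b⟩)
    · simp only [φ, Sum.inl.injEq]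
      exact mq a b
    · simp only [φ, reduceCtorEq]
      exact measurable_const
    · simp only [φ, reduceCtorEq]
      exact measurable_const
    · by_cases hij : i = j
      · subst hij
        simp only [φ, Sum.inr.injEq, Sigma.mk.injEq, heq_eq_eq, true_and]
        exact mc i a b
      · simp only [φ, Sum.inr.injEq, Sigma.mk.injEq, hij, false_and]
        exact measurable_const
  have hAdj : ∀ x y, Measurable fun N : MarkedGroup n =>
      (conedOff (QuotientGroup.mk' N.1 '' (X : Set F)) (Hs N)).Adj (φ N x) (φ N y) := by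
    rintro (a | ⟨i, a⟩) (b | ⟨j, b⟩)
    · simp only [φ, adj_ll]
      exact (mq a b).not.and ((mX (a⁻¹ * b)).or (mX (b⁻¹ * a)))
    · simp only [φ, adj_lr]
      exact mc j a b
    · simp only [φ, adj_rl]
      exact mc i b a
    · simp only [φ, adj_rr]
      exact measurable_const
  refine Measurable.and (Measurable.forall fun i => ?_)
    ((meas_hyp _ φ hφ hEq hAdj).and (meas_fine _ φ hφ hEq hAdj))
  have : (fun N : MarkedGroup n => Hs N i ≠ ⊤) = fun N : MarkedGroup n =>
      ¬ ∀ a : F, (QuotientGroup.mk a : F ⧸ N.1) ∈ Hs N i := by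
    funext N
    rw [Ne, Subgroup.eq_top_iff', QuotientGroup.mk_surjective.forall]
  change Measurable (fun N : MarkedGroup n => Hs N i ≠ ⊤)
  rw [this]
  exact (Measurable.forall fun a => mH _ a).not

end Pool.Agent.H840Z.MG
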